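import Pool.Agent.H30.MG

set_option autoImplicit false

namespace Pool.Agent.Results.MP_207d4d_co.NotUnimodal

open Pool.Agent.H30.MG

/-- There are connected graphs `H ≤ G` whose interval `[H,G]^c` is not unimodal. -/
theorem result :
    ∃ H G : MGraph, Conn H ∧ Conn G ∧ Sub H G ∧
      ∃ i j k : ℕ, i < j ∧ j < k ∧ k ≤ G.n - H.n ∧
        rankConn H G j < rankConn H G i ∧ rankConn H G j < rankConn H G k := by
  refine ⟨HH, GG, conn_HH, conn_GG, sub_HG, 5, 6, 7, by norm_num, by norm_num, by decide, ?_, ?_⟩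
  · rw [rank_eq, rank_eq, fam_cards.1, fam_cards.2.1]; norm_num
  · rw [rank_eq, rank_eq, fam_cards.2.2, fam_cards.2.1]; norm_num

end Pool.Agent.Results.MP_207d4d_co.NotUnimodal
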